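import Mathlib

set_option autoImplicit false

open Polynomial

namespace Pool.Agent.Results.MP_987215_an.AQ2Fails

noncomputable section

/-- The nodes `1/10 + 9i/10` and `1/10 - 9i/10`. -/
def nodes : Fin 2 → ℂ := ![⟨1/10, 9/10⟩, ⟨1/10, -(9/10)⟩]

lemma card_nodes (w : ℂ) :
    (Finset.univ.filter (fun j => nodes j = w)).card =
      (if (⟨1/10, 9/10⟩ : ℂ) = w then 1 else 0) + (if (⟨1/10, -(9/10)⟩ : ℂ) = w then 1 else 0) := by
  unfold nodes
  rw [Finset.card_filter, Fin.sum_univ_two]
  rfl

lemma d1 : deriv (fun x : ℂ => x ^ 3 / 6) = fun x => x ^ 2 / 2 := by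
  funext x
  have h : HasDerivAt (fun x : ℂ => x ^ 3 / 6) (3 * x ^ 2 / 6) x := by
    have := (hasDerivAt_pow 3 x).div_const 6
    simpa using this
  rw [h.deriv]
  ring

lemma d2 : deriv (fun x : ℂ => x ^ 2 / 2) = fun x => x := by
  funext x
  have h : HasDerivAt (fun x : ℂ => x ^ 2 / 2) (2 * x / 2) x := by
    have := (hasDerivAt_pow 2 x).div_const 2
    simpa using this
  rw [h.deriv]
  ring

/-- The interpolant of `z ^ 3 / 6` at the two nodes. -/
def pp : ℂ[X] := C (-(13/100) : ℂ) * X + C (-(41/1500) : ℂ)

/-- Disproof of Q2, even for nodes in the open disc with positive real part: the supremum of the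
error of the `k`-th derivative at `0` need not be `|f^(k)(0)| / n!`. -/
theorem result :
    ¬ (∀ (n : ℕ), 1 ≤ n → ∀ k : ℕ, k ≤ n - 1 → ∀ z : Fin n → ℂ, (∀ j, ‖z j‖ < 1) →
    (∀ j, 0 < (z j).re) →
    (∀ w : ℂ, w.im ≠ 0 →
      (Finset.univ.filter (fun j => z j = w)).card =
        (Finset.univ.filter (fun j => z j = starRingEnd ℂ w)).card) →
    (∀ w : ℂ, w.im = 0 → Even (Finset.univ.filter (fun j => z j = w)).card) →
    IsLUB {e : ℝ | ∃ g : ℂ → ℂ, ∃ p : Polynomial ℂ,
        Differentiable ℂ g ∧
        (∀ w : ℂ, ‖w‖ ≤ 1 → ‖iteratedDeriv n g w‖ ≤ 1) ∧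
        p.degree < (n : WithBot ℕ) ∧
        (∀ j : Fin n, ∀ i : ℕ, i < (Finset.univ.filter (fun l => z l = z j)).card →
          iteratedDeriv i (fun x => p.eval x) (z j) = iteratedDeriv i g (z j)) ∧
        e = ‖iteratedDeriv k g 0 - iteratedDeriv k (fun x => p.eval x) 0‖}
      (‖iteratedDeriv k (fun x => (∏ j : Fin n, (Polynomial.X - Polynomial.C (z j))).eval x) 0‖
        / (n.factorial : ℝ))) := by
  intro H
  have h := H 2 (by norm_num) 1 (by norm_num) nodes ?_ ?_ ?_ ?_
  · have h1 := h.1 ⟨fun x => x ^ 3 / 6, pp, by fun_prop, ?_, ?_, ?_, rfl⟩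
    · rw [iteratedDeriv_one, iteratedDeriv_one, iteratedDeriv_one, d1, Polynomial.deriv,
        Polynomial.deriv] at h1
      have e1 : (derivative pp).eval 0 = (-(13/100) : ℂ) := by simp [pp]
      have e2 : (derivative (∏ j : Fin 2, (X - C (nodes j)))).eval 0 = ((-(1/5) : ℝ) : ℂ) := by
        rw [Fin.prod_univ_two]
        simp only [derivative_mul, derivative_sub, derivative_X, derivative_C,
          eval_add, eval_sub, eval_X, eval_C, nodes, Matrix.cons_val_zero, Matrix.cons_val_one,
          sub_zero, one_mul, mul_one]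
        apply Complex.ext
        · simp
          norm_num
        · simp
      rw [e1, e2, Complex.norm_real] at h1
      have e3 : ((0 : ℂ) ^ 2 / 2 - (-(13/100) : ℂ)) = ((13/100 : ℝ) : ℂ) := by
        push_cast
        norm_num
      simp only [] at h1
      rw [e3, Complex.norm_real] at h1
      norm_num at h1
    · intro w hw
      rw [iteratedDeriv_succ, iteratedDeriv_one, d1, d2]
      exact hw
    · have : pp.degree ≤ 1 := degree_linear_le
      exact lt_of_le_of_lt this (by norm_num)
    · intro j i hi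
      have hc : (Finset.univ.filter (fun l => nodes l = nodes j)).card ≤ 1 := by
        rw [card_nodes]
        fin_cases j
        · simp [nodes, Complex.ext_iff]
          norm_num
        · simp [nodes, Complex.ext_iff]
          norm_num
      have hi0 : i = 0 := by omega
      subst hi0
      rw [iteratedDeriv_zero, iteratedDeriv_zero]
      unfold pp
      simp only [eval_add, eval_mul, eval_C, eval_X]
      fin_cases j
      · apply Complex.ext <;> simp [nodes, pow_succ] <;> norm_num
      · apply Complex.ext <;> simp [nodes, pow_succ] <;> norm_num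
  · intro j
    have hn : ∀ a b : ℝ, a ^ 2 + b ^ 2 < 1 → ‖(⟨a, b⟩ : ℂ)‖ < 1 := by
      intro a b hab
      rw [Complex.norm_def, Complex.normSq_mk, Real.sqrt_lt' one_pos]
      nlinarith
    fin_cases j
    · exact hn _ _ (by norm_num)
    · exact hn _ _ (by norm_num)
  · intro j
    fin_cases j <;> simp [nodes]
  · intro w _
    rw [card_nodes, card_nodes, add_comm]
    congr 1
    · apply if_congr _ rfl rfl
      rw [Complex.ext_iff, Complex.ext_iff]
      simp only [Complex.conj_re, Complex.conj_im]
      constructor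
      · rintro ⟨h1, h2⟩
        exact ⟨h1, by linarith⟩
      · rintro ⟨h1, h2⟩
        exact ⟨h1, by linarith⟩
    · apply if_congr _ rfl rfl
      rw [Complex.ext_iff, Complex.ext_iff]
      simp only [Complex.conj_re, Complex.conj_im]
      constructor
      · rintro ⟨h1, h2⟩
        exact ⟨h1, by linarith⟩
      · rintro ⟨h1, h2⟩
        exact ⟨h1, by linarith⟩
  · intro w hw
    rw [card_nodes, if_neg, if_neg]
    · exact Even.zero
    · intro h
      rw [← h] at hw
      norm_num at hw
    · intro h
      rw [← h] at hw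
      norm_num at hw

end

end Pool.Agent.Results.MP_987215_an.AQ2Fails
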